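import Pool.Agent.H987.Y.StA

/-! Project Y of helper987, K9: mixed radix digits are uniform. -/

set_option autoImplicit false
set_option linter.unusedSectionVars false

open scoped BigOperators Topology ENNReal
open MeasureTheory Filter ProbabilityTheory

namespace Pool.Agent.H588.Y987

open Pool.Agent.H987.Y

theorem unif_prob (C : Type) [Fintype C] [Nonempty C] [MeasurableSpace C]
    [MeasurableSingletonClass C] : IsProbabilityMeasure (unif C) := by
  constructor
  unfold unif
  rw [Measure.smul_apply, smul_eq_mul, ← Set.Finite.coe_toFinset (Set.toFinite (Set.univ : Set C)),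
    Measure.count_apply_finset]
  have : (Set.toFinite (Set.univ : Set C)).toFinset.card = Fintype.card C := by
    rw [Set.Finite.toFinset_univ, Finset.card_univ]
  rw [this]
  exact ENNReal.inv_mul_cancel (by simp) (by simp)

theorem int_unif (C : Type) [Fintype C] [Nonempty C] [MeasurableSpace C]
    [MeasurableSingletonClass C] (f : C → ℝ) :
    ∫ c, f c ∂(unif C) = ((Fintype.card C : ℝ))⁻¹ * ∑ c, f c := by
  unfold unif
  rw [integral_smul_measure, integral_count]
  simp

theorem ph_shift {d q : ℕ} [NeZero q] (v : Lt d) : ∃ e : Ph d q, ∀ c : Ph d q,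
    ∃ w : Lt d, v + ph c = ph (e + c) + (q : ℤ) • w := by
  have hq : (0 : ℤ) < q := by exact_mod_cast Nat.pos_of_ne_zero (NeZero.ne q)
  refine ⟨fun i => ⟨(v i % q).toNat, ?_⟩, fun c => ?_⟩
  · have h1 := Int.emod_nonneg (v i) hq.ne'
    have h2 := Int.emod_lt_of_pos (v i) hq
    omega
  · refine ⟨fun i => (v i + (c i : ℕ)) / q, ?_⟩
    funext i
    simp only [Pi.add_apply, ph, Pi.smul_apply, smul_eq_mul, Fin.val_add]
    have h1 := Int.emod_nonneg (v i) hq.ne'
    push_cast
    rw [Int.toNat_of_nonneg h1, Int.emod_add_emod]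
    exact (Int.emod_add_mul_ediv _ _).symm

theorem sum_shift {d q : ℕ} [NeZero q] (N : ℤ) (F : Lt d → ℝ)
    (hF : ∀ x v : Lt d, F (x + (N * (q : ℤ)) • v) = F x) (y v : Lt d) :
    ∑ c : Ph d q, F (y + N • (v + ph c)) = ∑ c : Ph d q, F (y + N • ph c) := by
  obtain ⟨e, he⟩ := ph_shift (q := q) v
  rw [← Equiv.sum_comp (Equiv.addLeft e) (fun c : Ph d q => F (y + N • ph c))]
  refine Finset.sum_congr rfl fun c _ => ?_
  obtain ⟨w, hw⟩ := he c
  rw [hw, smul_add, ← add_assoc, smul_smul, hF]
  rfl

theorem sum_radix {d N q : ℕ} (F : Lt d → ℝ) :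
    ∀ M : ℕ, M = q * N → ∑ h : Ph d M, F (ph h) =
      ∑ h : Ph d N, ∑ c : Ph d q, F (ph h + (N : ℤ) • ph c) := by
  rintro M rfl
  rw [Finset.sum_comm, ← Fintype.sum_prod_type']
  let E : (Ph d q) × (Ph d N) ≃ Ph d (q * N) :=
    (Equiv.arrowProdEquivProdArrow (Fin d) (fun _ => Fin q) (fun _ => Fin N)).symm.trans
      (Equiv.piCongrRight fun _ => finProdFinEquiv)
  rw [← Equiv.sum_comp E]
  refine Finset.sum_congr rfl fun p _ => ?_
  have h1 : (ph (E p) : Lt d) = ph p.2 + (N : ℤ) • ph p.1 := by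
    funext i
    simp only [ph, Pi.add_apply, Pi.smul_apply, smul_eq_mul]
    have h2 : ((E p i : Fin (q * N)) : ℕ) = p.2 i + N * p.1 i := rfl
    rw [h2]
    push_cast
    ring
  rw [h1]

theorem pQ_succ (Q : ℕ → ℕ) (n : ℕ) : pQ Q (n + 1) = pQ Q n * Q n := Finset.prod_range_succ _ _

theorem hd_succ {d : ℕ} {Q : ℕ → ℕ} (n : ℕ) (u : Hu d Q) :
    hd (n + 1) u = hd n u + (pQ Q n : ℤ) • ph (u n) := Finset.sum_range_succ _ _

theorem meas_dg {d : ℕ} {Q : ℕ → ℕ} (n : ℕ) :
    Measurable fun u : Hu d Q => (pQ Q n : ℤ) • ph (u n) :=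
  (measurable_of_countable (fun c : Ph d (Q n) => (pQ Q n : ℤ) • ph c)).comp
    (measurable_pi_apply n)

theorem meas_hd {d : ℕ} {Q : ℕ → ℕ} (n : ℕ) : Measurable fun u : Hu d Q => hd n u := by
  unfold hd
  exact Finset.measurable_fun_sum _ fun k _ => meas_dg k

theorem bdd {d : ℕ} (F : Lt d → ℝ) (N : ℕ) [NeZero N]
    (hF : ∀ x v : Lt d, F (x + (N : ℤ) • v) = F x) : ∃ C, ∀ x, ‖F x‖ ≤ C := by
  refine ⟨∑ h : Ph d N, ‖F (ph h)‖, fun x => ?_⟩
  obtain ⟨e, he⟩ := ph_shift (q := N) x
  obtain ⟨w, hw⟩ := he 0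
  have h0 : (ph (0 : Ph d N) : Lt d) = 0 := by
    funext i
    simp [ph]
  rw [h0, add_zero, add_zero] at hw
  rw [hw, hF]
  exact Finset.single_le_sum (f := fun h : Ph d N => ‖F (ph h)‖) (fun _ _ => norm_nonneg _)
    (Finset.mem_univ e)

theorem dig : Pool.Agent.H987.Y.S_dig := by
  intro d Q hQ
  have : ∀ k, NeZero (Q k) := fun k => ⟨(hQ k).ne'⟩
  have : ∀ k, IsProbabilityMeasure (unif (Ph d (Q k))) := fun k => unif_prob _
  have hP : IsProbabilityMeasure (PH d Q) := by
    unfold PH
    infer_instance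
  refine ⟨hP, meas_hd, fun n => ?_⟩
  have hpos : ∀ n, 0 < pQ Q n := fun n => Finset.prod_pos fun k _ => hQ k
  have : ∀ n, NeZero (pQ Q n) := fun n => ⟨(hpos n).ne'⟩
  induction n with
  | zero =>
    intro F hF x
    have hc : ∀ y, F y = F 0 := by
      intro y
      have := hF 0 y
      simpa [pQ] using this
    rw [int_unif]
    simp only [hc, integral_const, Finset.sum_const, Finset.card_univ]
    have h1 : (Fintype.card (Ph d (pQ Q 0)) : ℝ) ≠ 0 := by
      exact_mod_cast Fintype.card_ne_zero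
    rw [nsmul_eq_mul, ← mul_assoc, inv_mul_cancel₀ h1]
    simp
  | succ n ih =>
    intro F hF x
    -- independence
    have hind : IndepFun (fun u : Hu d Q => hd n u) (fun u : Hu d Q => (pQ Q n : ℤ) • ph (u n))
        (PH d Q) := by
      have h1 : iIndepFun (fun (k : ℕ) (u : Hu d Q) => (pQ Q k : ℤ) • ph (u k)) (PH d Q) :=
        iIndepFun_infinitePi (P := fun k : ℕ => unif (Ph d (Q k)))
          (X := fun (k : ℕ) (c : Ph d (Q k)) => (pQ Q k : ℤ) • ph c)
          (fun k => measurable_of_countable _)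
      have h2 := h1.indepFun_finsetSum_of_notMem (fun k => meas_dg k)
        (s := Finset.range n) (i := n) (by simp)
      have h3 : (fun u : Hu d Q => hd n u) =
          ∑ k ∈ Finset.range n, fun u : Hu d Q => (pQ Q k : ℤ) • ph (u k) := by
        funext u
        rw [Finset.sum_apply]
        rfl
      rw [h3]
      exact h2
    have hmap := hind.map_prod_eq_prod_map_map (meas_hd n).aemeasurable (meas_dg n).aemeasurable
    obtain ⟨C, hC⟩ := bdd F (pQ Q (n + 1)) hF
    have hlaw : (PH d Q).map (fun u : Hu d Q => (pQ Q n : ℤ) • ph (u n)) =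
        (unif (Ph d (Q n))).map (fun c => (pQ Q n : ℤ) • ph c) := by
      have h1 : (PH d Q).map (fun u : Hu d Q => u n) = unif (Ph d (Q n)) :=
        Measure.infinitePi_map_eval (fun k : ℕ => unif (Ph d (Q k))) n
      have hm : Measurable fun u : Hu d Q => u n := measurable_pi_apply n
      rw [← h1, Measure.map_map (measurable_of_countable _) hm]
      rfl
    have hFm : Measurable F := measurable_of_countable F
    have e1 : ∫ u, F (hd (n + 1) u + x) ∂(PH d Q) =
        ∫ u, ∫ c, F (hd n u + (pQ Q n : ℤ) • ph c + x) ∂(unif (Ph d (Q n))) ∂(PH d Q) := by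
      have h1 : ∫ u, F (hd (n + 1) u + x) ∂(PH d Q) =
          ∫ p : Lt d × Lt d, F (p.1 + p.2 + x) ∂((PH d Q).map (fun u : Hu d Q =>
            (hd n u, (pQ Q n : ℤ) • ph (u n)))) := by
        rw [integral_map ((meas_hd n).prodMk (meas_dg n)).aemeasurable
          (measurable_of_countable _).aestronglyMeasurable]
        refine integral_congr_ae (Eventually.of_forall fun u => ?_)
        simp only [hd_succ]
      rw [h1, hmap]
      have : IsProbabilityMeasure ((PH d Q).map (fun u : Hu d Q => hd n u)) :=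
        Measure.isProbabilityMeasure_map (meas_hd n).aemeasurable
      have : IsProbabilityMeasure ((PH d Q).map (fun u : Hu d Q => (pQ Q n : ℤ) • ph (u n))) :=
        Measure.isProbabilityMeasure_map (meas_dg n).aemeasurable
      rw [integral_prod _ (by
        refine Integrable.of_bound (measurable_of_countable _).aestronglyMeasurable C
          (Eventually.of_forall fun p => hC _))]
      rw [integral_map (meas_hd n).aemeasurable
          (measurable_of_countable _).aestronglyMeasurable]
      refine integral_congr_ae (Eventually.of_forall fun u => ?_)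
      simp only
      rw [hlaw, integral_map (measurable_of_countable _).aemeasurable
        (measurable_of_countable _).aestronglyMeasurable]
    rw [e1]
    have e2 : ∀ u : Hu d Q, ∫ c, F (hd n u + (pQ Q n : ℤ) • ph c + x) ∂(unif (Ph d (Q n))) =
        (fun y : Lt d => ((Fintype.card (Ph d (Q n)) : ℝ))⁻¹ *
          ∑ c : Ph d (Q n), F (y + (pQ Q n : ℤ) • ph c)) (hd n u + x) := by
      intro u
      rw [int_unif]
      simp only
      congr 1
      refine Finset.sum_congr rfl fun c _ => ?_
      rw [add_right_comm]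
    simp_rw [e2]
    have hcast : ((pQ Q (n + 1) : ℕ) : ℤ) = (pQ Q n : ℤ) * (Q n : ℤ) := by
      rw [pQ_succ]; push_cast; ring
    rw [ih (fun y : Lt d => ((Fintype.card (Ph d (Q n)) : ℝ))⁻¹ *
          ∑ c : Ph d (Q n), F (y + (pQ Q n : ℤ) • ph c)) (by
        intro y v
        congr 1
        rw [← sum_shift (q := Q n) (pQ Q n : ℤ) F (by
          intro x v
          rw [← hcast]
          exact hF x v) y v]
        refine Finset.sum_congr rfl fun c _ => ?_
        rw [smul_add, add_assoc]) x]
    rw [int_unif, int_unif, sum_radix (N := pQ Q n) (q := Q n) F (pQ Q (n + 1)) (by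
      rw [pQ_succ, mul_comm]), ← Finset.mul_sum, ← mul_assoc]
    congr 1
    rw [Fintype.card_fun, Fintype.card_fun, Fintype.card_fun, Fintype.card_fin, Fintype.card_fin,
      Fintype.card_fin, Fintype.card_fin, pQ_succ, ← mul_inv, ← Nat.cast_mul, ← mul_pow]

end Pool.Agent.H588.Y987
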