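import Pool.Agent.H987.Y.StA

/-! Project Y of helper987, K5: the product measure over the lists of branches, split at the root
(adapted from `Pool.Agent.H282.Z987.Split`). -/

set_option autoImplicit false
set_option linter.unusedSectionVars false

open scoped BigOperators Topology ENNReal
open MeasureTheory Filter ProbabilityTheory

namespace Pool.Agent.H588.Y987

open Pool.Agent.H987.Y

variable {X Ω : Type} {n : ℕ}

/-- the other lists -/
def f1 (p : Ix X n × List (Ix X n)) : List (Ix X n) := p.2 ++ [p.1]

theorem f1_inj : Function.Injective (f1 (X := X) (n := n)) := by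
  rintro ⟨y, l⟩ ⟨y', l'⟩ h
  unfold f1 at h
  have h1 := List.append_inj' h rfl
  simp only [List.cons.injEq, and_true] at h1
  simp [h1.1, h1.2]

theorem gl_nil (ω : Ω) (w : Ix X n → List (Ix X n) → Ω) : gl ω w [] = ω := by
  unfold gl
  simp

theorem gl_f1 (ω : Ω) (w : Ix X n → List (Ix X n) → Ω) (y : Ix X n) (l : List (Ix X n)) :
    gl ω w (l ++ [y]) = w y l := by
  unfold gl
  simp

theorem cover (a : List (Ix X n)) : a = [] ∨ a ∈ Set.range (f1 (X := X) (n := n)) := by
  rcases List.eq_nil_or_concat a with h | ⟨l', y, h⟩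
  · exact Or.inl h
  · right
    exact ⟨(y, l'), by unfold f1; rw [h]; simp⟩

theorem gl_meas [MeasurableSpace Ω] :
    Measurable fun q : Ω × (Ix X n → List (Ix X n) → Ω) => gl q.1 q.2 := by
  rw [measurable_pi_iff]
  intro a
  rcases cover a with rfl | ⟨⟨y, l⟩, rfl⟩
  · have : (fun p : Ω × (Ix X n → List (Ix X n) → Ω) => gl p.1 p.2 []) = fun p => p.1 := by
      funext p
      exact gl_nil _ _
    rw [this]
    exact measurable_fst
  · have : (fun p : Ω × (Ix X n → List (Ix X n) → Ω) => gl p.1 p.2 (f1 (y, l))) =
        fun p => p.2 y l := by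
      funext p
      exact gl_f1 _ _ _ _
    rw [this]
    exact (measurable_pi_apply l).comp ((measurable_pi_apply y).comp measurable_snd)

open Classical in
theorem split_meas [MeasurableSpace Ω] (P : Measure Ω) [IsProbabilityMeasure P] :
    (P.prod (Measure.infinitePi fun _ : Ix X n =>
      Measure.infinitePi fun _ : List (Ix X n) => P)).map
      (fun q => gl q.1 q.2) = Measure.infinitePi fun _ : List (Ix X n) => P := by
  refine Measure.eq_infinitePi _ fun s t ht => ?_
  rw [Measure.map_apply gl_meas (MeasurableSet.pi s.countable_toSet fun i _ => ht i)]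
  obtain ⟨s1, hs1⟩ : ∃ s1, s1 = s.preimage f1 f1_inj.injOn := ⟨_, rfl⟩
  have h1 : (fun p : Ω × (Ix X n → List (Ix X n) → Ω) => gl p.1 p.2) ⁻¹'
      ((s : Set (List (Ix X n))).pi t) =
      (if [] ∈ s then t [] else Set.univ) ×ˢ
        ((MeasurableEquiv.curry (Ix X n) (List (Ix X n)) Ω).symm ⁻¹'
          ((s1 : Set (Ix X n × List (Ix X n))).pi fun p => t (f1 p))) := by
    ext ⟨v, w⟩
    simp only [Set.mem_preimage, Set.mem_pi, Set.mem_prod, Finset.mem_coe]
    constructor
    · intro h
      refine ⟨?_, fun p hp => ?_⟩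
      · split_ifs with h0
        · have := h _ h0
          rwa [gl_nil] at this
        · trivial
      · rw [hs1, Finset.mem_preimage] at hp
        have := h _ hp
        obtain ⟨y, l⟩ := p
        rw [show f1 (y, l) = l ++ [y] from rfl, gl_f1] at this
        exact this
    · rintro ⟨h2, h3⟩ a ha
      rcases cover a with hx | ⟨⟨y, l⟩, hp⟩
      · subst hx
        rw [if_pos ha] at h2
        rw [gl_nil]
        exact h2
      · subst hp
        have := h3 (y, l) (by rw [hs1, Finset.mem_preimage]; exact ha)
        rw [show f1 (y, l) = l ++ [y] from rfl, gl_f1]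
        exact this
  rw [h1, Measure.prod_prod]
  have h2 : (Measure.infinitePi fun _ : Ix X n => Measure.infinitePi fun _ : List (Ix X n) => P)
      ((MeasurableEquiv.curry (Ix X n) (List (Ix X n)) Ω).symm ⁻¹'
          ((s1 : Set (Ix X n × List (Ix X n))).pi fun p => t (f1 p))) =
      ∏ p ∈ s1, P (t (f1 p)) := by
    have h3 := Measure.infinitePi_map_curry_symm (ι := Ix X n) (κ := List (Ix X n)) (fun _ _ => P)
    rw [← Measure.map_apply (MeasurableEquiv.measurable _)
      (MeasurableSet.pi s1.countable_toSet fun i _ => ht _), h3,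
      Measure.infinitePi_pi _ fun i _ => ht _]
  rw [h2]
  have h3 : ∀ a : List (Ix X n), P (t a) = (if a = [] then P (t a) else 1) *
      (if a = [] then 1 else P (t a)) := by
    intro a
    split_ifs <;> simp
  rw [Finset.prod_congr rfl fun a _ => h3 a, Finset.prod_mul_distrib, hs1]
  congr 1
  · rw [Finset.prod_ite_eq' s [] (fun a => P (t a))]
    split_ifs <;> simp
  · rw [← Finset.prod_preimage f1 s f1_inj.injOn (fun a => if a = [] then 1 else P (t a))]
    · refine Finset.prod_congr rfl fun p _ => ?_
      rw [if_neg]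
      unfold f1
      simp
    · intro a _ hr
      rcases cover a with hx | h
      · subst hx
        rw [if_pos rfl]
      · exact absurd h hr

theorem tsplit : Pool.Agent.H987.Y.S_tsplit := by
  intro X Ω _ _ n P _
  refine ⟨gl_nil, fun ω w i => ?_, gl_meas, split_meas P⟩
  funext l
  exact gl_f1 ω w i l

end Pool.Agent.H588.Y987
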